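import Pool.Agent.Helper64.HG.Stmts

/-! Module CON2: a vertex that has neighbours on both sides in one piece and a neighbour in another
piece. -/

set_option autoImplicit false

namespace Pool.Agent.Helper64.HG

variable {V : Type}

theorem con2_btw {G : SimpleGraph V} {v : V} {K : Set V} {q : V → ℝ} {a b n : V}
    (hinj : ∀ a ∈ Att G v K, ∀ b ∈ Att G v K, q a = q b → a = b) (hab : a ≠ b)
    (h1 : Cons G v K q a n) (h2 : Cons G v K q n b) : Btw q a n b := by
  have ha := h1.1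
  have hn := h1.2.1
  have han := h1.2.2.1
  have hb := h2.2.1
  have hnb := h2.2.2.1
  have e1 : q a ≠ q n := fun h => han (hinj a ha n hn h)
  have e2 : q n ≠ q b := fun h => hnb (hinj n hn b hb h)
  have e3 : q a ≠ q b := fun h => hab (hinj a ha b hb h)
  have f1 : ¬ Btw q a b n := h1.2.2.2 b hb
  have f2 : ¬ Btw q n a b := h2.2.2.2 a ha
  unfold Btw at f1 f2 ⊢
  rcases lt_or_gt_of_ne e1 with g1 | g1 <;> rcases lt_or_gt_of_ne e2 with g2 | g2 <;>
    rcases lt_or_gt_of_ne e3 with g3 | g3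
  · exact Or.inl ⟨g1, g2⟩
  · exact Or.inl ⟨g1, g2⟩
  · exact absurd (Or.inl ⟨g3, g2⟩) f1
  · exact absurd (Or.inr ⟨g3, g1⟩) f2
  · exact absurd (Or.inl ⟨g1, g3⟩) f2
  · exact absurd (Or.inr ⟨g2, g3⟩) f1
  · exact Or.inr ⟨g2, g1⟩
  · exact Or.inr ⟨g2, g1⟩

theorem con2_not {q : V → ℝ} {a b n c : V} (hcn : q c ≠ q n) (hn : Btw q a n b)
    (h : Btw q a c b) : Btw q a c n ∨ Btw q n c b := by
  unfold Btw at *
  rcases lt_or_gt_of_ne hcn with g | g
  · rcases hn with hn | hn <;> rcases h with h | h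
    · exact Or.inl (Or.inl ⟨h.1, g⟩)
    · exact absurd (hn.1.trans hn.2) (not_lt.2 (h.1.trans h.2).le)
    · exact absurd (hn.1.trans hn.2) (not_lt.2 (h.1.trans h.2).le)
    · exact Or.inr (Or.inr ⟨h.1, g⟩)
  · rcases hn with hn | hn <;> rcases h with h | h
    · exact Or.inr (Or.inl ⟨g, h.2⟩)
    · exact absurd (hn.1.trans hn.2) (not_lt.2 (h.1.trans h.2).le)
    · exact absurd (hn.1.trans hn.2) (not_lt.2 (h.1.trans h.2).le)
    · exact Or.inl (Or.inr ⟨g, h.2⟩)

theorem con2_two {G : SimpleGraph V} (hg : Girth5 G) {v u w : V} {B : List V}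
    (hu : G.Adj v u) (hw : G.Adj v w) (huw : u ≠ w) (hvB : ∀ x ∈ B, x ≠ v)
    (h : Link G u B w) : 2 ≤ B.length := by
  obtain ⟨h1, h2, h3, h4, h5, h6⟩ := h
  match B, h1, h5, h6, hvB with
  | [x], _, h5, h6, hvB =>
    exfalso
    have e1 : G.Adj u x := (h5 x (by simp)).2 rfl
    have e2 : G.Adj w x := (h6 x (by simp)).2 rfl
    exact hg.2 v u x w (hvB x (by simp)).symm huw hu e1 e2.symm hw.symm
  | x :: y :: B, _, _, _, _ => simp

theorem st_CON2 (hCNS : ST_CNS) (hSNC : ST_SNC) (hREV : ST_REV) (hSPL : ST_SPL)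
    (hCY1 : ST_CY1) : ST_CON2 := by
  intro V _ G v ι K q hg hL i j hij a b c n hab hca hcb h1 h2 h3
  have hbtw := con2_btw (hL.inj i) hab h1 h2
  have ha : G.Adj v a := h1.1.1
  have hn : G.Adj v n := h1.2.1.1
  have hb : G.Adj v b := h2.2.1.1
  have hc : G.Adj v c := h3.2.1.1
  have han : a ≠ n := h1.2.2.1
  have hnb : n ≠ b := h2.2.2.1
  have hnc : n ≠ c := h3.2.2.1
  have htri : ∀ x y, G.Adj v x → G.Adj v y → ¬ G.Adj x y := fun x y hx hy h =>
    hg.1 v x y hx h hy
  obtain ⟨A, hAK, hA, hAn⟩ := hL.path i a h1.1 b h2.2.1 hab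
  obtain ⟨B, hBK, hB, hBn⟩ := hL.path j n h3.1 c h3.2.1 hnc
  have hAv : ∀ x ∈ A, x ≠ v ∧ ¬ G.Adj v x := fun x hx => hL.sub i (hAK x hx)
  have hBv : ∀ x ∈ B, x ≠ v ∧ ¬ G.Adj v x := fun x hx => hL.sub j (hBK x hx)
  have hne : ∀ y, G.Adj v y → (∀ x ∈ A, y ≠ x) ∧ (∀ x ∈ B, y ≠ x) := by
    intro y hy
    refine ⟨fun x hx h => ?_, fun x hx h => ?_⟩
    · exact (hAv x hx).2 (h ▸ hy)
    · exact (hBv x hx).2 (h ▸ hy)
  have hcA : ∀ x ∈ A, ¬ G.Adj c x := by
    intro x hx hcx
    obtain ⟨g1, g2⟩ := (hAn c hc hca hcb).1 ⟨x, hx, hcx⟩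
    have g3 : q i c ≠ q i n := fun h => hnc (hL.inj i c g1 n h1.2.1 h).symm
    rcases con2_not g3 hbtw g2 with g | g
    · exact h1.2.2.2 c g1 g
    · exact h2.2.2.2 c g1 g
  have hBt : ∀ y, G.Adj v y → y ≠ n → y ≠ c → ∀ x ∈ B, ¬ G.Adj y x := by
    intro y hy hyn hyc x hx hyx
    obtain ⟨g1, g2⟩ := (hBn y hy hyn hyc).1 ⟨x, hx, hyx⟩
    exact h3.2.2.2 y g1 g2
  have hAB : ∀ x ∈ A, ∀ y ∈ B, x ≠ y ∧ ¬ G.Adj x y := fun x hx y hy =>
    hL.sep i j hij x (hAK x hx) y (hBK y hy)
  have hAntiv : ∀ T : List V, (∀ x ∈ T, x ≠ v ∧ ¬ G.Adj v x) → Anti G [v] T := by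
    intro T hT y hy x hx
    rw [List.mem_singleton] at hy
    subst hy
    exact ⟨(hT x hx).1.symm, (hT x hx).2⟩
  obtain ⟨y, hyA, hny⟩ := (hAn n hn han.symm hnb).2 ⟨h1.2.1, hbtw⟩
  by_cases huniq : ∀ x ∈ A, G.Adj n x → x = y
  · -- one neighbour: the ear configuration
    left
    obtain ⟨A1, A2, rfl⟩ := List.append_of_mem hyA
    obtain ⟨s1, s2, s3, s4, s5, s6, s7, s8, s9⟩ := hSPL V G a y b A1 A2 hA
    have hyv := hAv y hyA
    have hA1 : A1 ≠ [] := by
      intro h
      exact hg.2 v a y n hyv.1.symm han ha (s1 h) hny.symm hn.symm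
    have hA2 : A2 ≠ [] := by
      intro h
      exact hg.2 v b y n hyv.1.symm hnb.symm hb (s3 h).symm hny.symm hn.symm
    obtain ⟨l1, l2⟩ := s2 hA1
    obtain ⟨l3, l4⟩ := s4 hA2
    have hnd : (A1 ++ y :: A2).Nodup := hA.2.1.1
    have hyA1 : ∀ x ∈ A1, x ≠ y := by
      intro x hx h
      subst h
      rw [List.nodup_append] at hnd
      exact hnd.2.2 x hx x (by simp) rfl
    have hyA2 : ∀ x ∈ A2, x ≠ y := by
      intro x hx h
      subst h
      rw [List.nodup_append] at hnd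
      exact (List.nodup_cons.1 hnd.2.1).1 hx
    have m1 : ∀ x ∈ A1, x ∈ A1 ++ y :: A2 := fun x hx => List.mem_append_left _ hx
    have m2 : ∀ x ∈ A2, x ∈ A1 ++ y :: A2 := fun x hx =>
      List.mem_append_right _ (List.mem_cons_of_mem _ hx)
    have link1 : Link G v (a :: A1) y := hCNS V G v a y A1 ha l1
      (hAntiv A1 fun x hx => hAv x (m1 x hx)) s8.symm (fun h => l2 h.symm)
    have link2 : Link G v (b :: A2.reverse) y := hCNS V G v b y A2.reverse hb
      (hREV V G y b A2 l3) (hAntiv _ fun x hx => hAv x (m2 x (List.mem_reverse.1 hx)))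
      s9.symm l4
    have linkF : Link G n (B ++ [c]) v := hSNC V G n c v B hB hc.symm
      (hAntiv B hBv) hnc (htri n c hn hc)
    have hB2 := con2_two hg hn hc hnc (fun x hx => (hBv x hx).1) hB
    refine ⟨n, v, y, B ++ [c], a :: A1, b :: A2.reverse, ?_⟩
    refine ⟨hn.symm, hny, hyv.1.symm, hyv.2, linkF, link1, link2, ?_, ?_, ?_, ?_, ?_, ?_, ?_, ?_, ?_⟩
    · intro x hx z hz
      rw [List.mem_append, List.mem_singleton] at hx
      rw [List.mem_cons] at hz
      rcases hx with hx | rfl <;> rcases hz with rfl | hz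
      · exact ⟨((hne z ha).2 x hx).symm, fun h => hBt z ha han hca.symm x hx h.symm⟩
      · have := hAB z (m1 z hz) x hx
        exact ⟨this.1.symm, fun h => this.2 h.symm⟩
      · exact ⟨hca, htri x z hc ha⟩
      · exact ⟨(hne x hc).1 z (m1 z hz), hcA z (m1 z hz)⟩
    · intro x hx z hz
      rw [List.mem_append, List.mem_singleton] at hx
      rw [List.mem_cons, List.mem_reverse] at hz
      rcases hx with hx | rfl <;> rcases hz with rfl | hz
      · exact ⟨((hne z hb).2 x hx).symm, fun h => hBt z hb hnb.symm hcb.symm x hx h.symm⟩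
      · have := hAB z (m2 z hz) x hx
        exact ⟨this.1.symm, fun h => this.2 h.symm⟩
      · exact ⟨hcb, htri x z hc hb⟩
      · exact ⟨(hne x hc).1 z (m2 z hz), hcA z (m2 z hz)⟩
    · intro x hx z hz
      rw [List.mem_cons] at hx
      rw [List.mem_cons, List.mem_reverse] at hz
      rcases hx with rfl | hx <;> rcases hz with rfl | hz
      · exact ⟨hab, htri x z ha hb⟩
      · exact s6 x (by simp) z hz
      · have := s7 z (by simp) x hx
        exact ⟨this.1.symm, fun h => this.2 h.symm⟩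
      · exact s5 x hx z hz
    · intro x hx z hz
      rw [List.mem_singleton] at hx
      subst hx
      rw [List.mem_append, List.mem_singleton] at hz
      rcases hz with hz | rfl
      · exact hAB x hyA z hz
      · exact ⟨((hne z hc).1 x hyA).symm, fun h => hcA x hyA h.symm⟩
    · intro x hx z hz
      rw [List.mem_singleton] at hx
      subst hx
      rw [List.mem_cons] at hz
      rcases hz with rfl | hz
      · exact ⟨han.symm, htri x z hn ha⟩
      · exact ⟨(hne x hn).1 z (m1 z hz), fun h => hyA1 z hz (huniq z (m1 z hz) h)⟩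
    · intro x hx z hz
      rw [List.mem_singleton] at hx
      subst hx
      rw [List.mem_cons, List.mem_reverse] at hz
      rcases hz with rfl | hz
      · exact ⟨hnb, htri x z hn hb⟩
      · exact ⟨(hne x hn).1 z (m2 z hz), fun h => hyA2 z hz (huniq z (m2 z hz) h)⟩
    · simp
      omega
    · have := List.length_pos_iff.2 hA1
      simp
      omega
    · have := List.length_pos_iff.2 hA2
      simp
      omega
  · -- two neighbours: a wheel
    right
    push Not at huniq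
    obtain ⟨x, hxA, hnx, hxy⟩ := huniq
    have link : Link G v (a :: A) b := hCNS V G v a b A ha hA (hAntiv A hAv) hab.symm
      (htri b a hb ha)
    have hic := hCY1 V G v b (a :: A) link hb
    refine ⟨n, _, v, x, y, hic, ?_, ?_, ?_, ?_, ?_, ?_, hxy, hn.symm, hnx, hny⟩
    · intro h
      simp only [List.mem_cons, List.mem_append, List.mem_singleton, List.not_mem_nil,
        or_false] at h
      rcases h with h | (h | h) | h
      · exact hn.ne h.symm
      · exact han h.symm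
      · exact (hne n hn).1 n h rfl
      · exact hnb h
    · simp
    · simp [hxA]
    · simp [hyA]
    · exact (hAv x hxA).1.symm
    · exact (hAv y hyA).1.symm

end Pool.Agent.Helper64.HG
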