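import Pool.Agent.Helper64.HG.Stmts

/-! Module FUK: a subdivided `K₄` which is in no proper induced subgraph is the whole graph. -/

set_option autoImplicit false

namespace Pool.Agent.Helper64.HG

variable {V : Type}

theorem fuk_link {G : SimpleGraph V} {S : Set V} (u w : S) (A : List S)
    (h : Link G u.1 (A.map Subtype.val) w.1) : Link (G.induce S) u A w := by
  obtain ⟨h1, ⟨h2, h3⟩, h4, h5, h6, h7⟩ := h
  have hinj : Function.Injective (Subtype.val : S → V) := Subtype.val_injective
  refine ⟨?_, ⟨?_, ?_⟩, ?_, ?_, ?_, ?_⟩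
  · intro h
    apply h1
    rw [h]
    rfl
  · exact (List.nodup_map_iff hinj).1 h2
  · intro i j hi hj hij
    have := h3 i j (by simpa using hi) (by simpa using hj) hij
    simpa using this
  · intro h
    exact h4 (List.mem_map_of_mem h)
  · intro h
    exact h5 (List.mem_map_of_mem h)
  · intro x hx
    have := h6 x.1 (List.mem_map_of_mem hx)
    rw [List.head?_map, Option.map_eq_some_iff] at this
    rw [SimpleGraph.comap_adj]
    refine this.trans ⟨?_, fun h => ⟨x, h, rfl⟩⟩
    rintro ⟨y, hy, he⟩
    rw [hy, hinj he]
  · intro x hx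
    have := h7 x.1 (List.mem_map_of_mem hx)
    rw [List.getLast?_map, Option.map_eq_some_iff] at this
    rw [SimpleGraph.comap_adj]
    refine this.trans ⟨?_, fun h => ⟨x, h, rfl⟩⟩
    rintro ⟨y, hy, he⟩
    rw [hy, hinj he]

theorem st_FUK : ST_FUK := by
  intro V G m ⟨x, A, hK, hm⟩ hS
  classical
  let S : Set V := {v | (∃ i, v = x i) ∨ ∃ i j, i ≠ j ∧ v ∈ A i j}
  by_cases hSu : S = Set.univ
  · refine ⟨x, A, hK, hm, fun v => ?_⟩
    have : v ∈ S := by rw [hSu]; trivial
    exact this
  · exfalso
    have hx : ∀ i, x i ∈ S := fun i => Or.inl ⟨i, rfl⟩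
    have hA : ∀ i j, i ≠ j → ∀ v ∈ A i j, v ∈ S := fun i j hij v hv => Or.inr ⟨i, j, hij, hv⟩
    have hex : ∀ i j, ∃ B : List S, (i ≠ j → B.map Subtype.val = A i j) ∧ (i = j → B = []) := by
      intro i j
      by_cases hij : i = j
      · exact ⟨[], fun h => absurd hij h, fun _ => rfl⟩
      · refine ⟨(A i j).attachWith (· ∈ S) (hA i j hij), fun _ => ?_, fun h => absurd h hij⟩
        exact List.attachWith_map_subtype_val _
    choose B hB hB0 using hex
    have hinj : Function.Injective (Subtype.val : S → V) := Subtype.val_injective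
    have hmem : ∀ i j, i ≠ j → ∀ v ∈ B i j, v.1 ∈ A i j := by
      intro i j hij v hv
      rw [← hB i j hij]
      exact List.mem_map_of_mem hv
    have hnil : ∀ i j, i ≠ j → (B i j = [] ↔ A i j = []) := by
      intro i j hij
      rw [← hB i j hij, List.map_eq_nil_iff]
    refine hS S hSu ⟨fun i => ⟨x i, hx i⟩, B, ?_, ?_⟩
    · refine ⟨?_, ?_, ?_, ?_, ?_, ?_, ?_⟩
      · intro i j h
        exact hK.inj (congrArg Subtype.val h)
      · intro i j
        by_cases hij : i = j
        · subst hij
          rw [hB0 i i rfl]
          rfl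
        · apply (List.map_injective_iff.2 hinj)
          rw [hB j i (Ne.symm hij), List.map_reverse, hB i j hij]
          exact hK.rev i j
      · intro i j hij h
        exact hK.edge i j hij ((hnil i j hij).1 h)
      · intro i j hij h
        exact hK.nedge i j hij fun h' => h ((hnil i j hij).2 h')
      · intro i j hij h
        apply fuk_link
        rw [hB i j hij]
        exact hK.link i j hij fun h' => h ((hnil i j hij).2 h')
      · intro i j k l hij hkl h1 h2 a ha b hb
        have := hK.anti i j k l hij hkl h1 h2 a.1 (hmem i j hij a ha) b.1 (hmem k l hkl b hb)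
        exact ⟨fun h => this.1 (congrArg Subtype.val h), this.2⟩
      · intro i j k hij hki hkj a ha b hb
        rw [List.mem_singleton] at ha
        subst ha
        have := hK.antix i j k hij hki hkj (x k) (by simp) b.1 (hmem i j hij b hb)
        exact ⟨fun h => this.1 (congrArg Subtype.val h), this.2⟩
    · intro i j hij
      rw [← hm i j hij, ← hB i j hij, List.length_map]

end Pool.Agent.Helper64.HG
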