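import Pool.Agent.Helper64.HG.Stmts

/-! Module MK: minimality of the subdivided `K₄`. -/

set_option autoImplicit false

namespace Pool.Agent.Helper64.HG

theorem st_MK (hMK1 : ST_MK1) (hMK2 : ST_MK2) (hPP : ST_PP) : ST_MK := by
  intro V _ G x A hg hK hs hcov v
  rcases hcov v with ⟨i, rfl⟩ | ⟨i, j, hij, hv⟩
  · exact hMK2 V G x A hg hK hcov i
  · have hne : A i j ≠ [] := List.ne_nil_of_mem hv
    refine hPP V G (x i) (x j) v (A i j) (hK.link i j hij hne) ?_ hv
      (hMK1 V G x A hg hK hs hcov i j hij hne)
    intro a ha y hay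
    rcases hcov y with ⟨k, rfl⟩ | ⟨k, l, hkl, hy⟩
    · by_cases hki : k = i
      · subst hki
        exact Or.inr (Or.inl rfl)
      · by_cases hkj : k = j
        · subst hkj
          exact Or.inr (Or.inr rfl)
        · exact absurd hay.symm (hK.antix i j k hij hki hkj (x k) (by simp) a ha).2
    · by_cases h1 : i = k ∧ j = l
      · obtain ⟨rfl, rfl⟩ := h1
        exact Or.inl hy
      · by_cases h2 : i = l ∧ j = k
        · obtain ⟨rfl, rfl⟩ := h2
          left
          rw [hK.rev i j, List.mem_reverse] at hy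
          exact hy
        · exact absurd hay (hK.anti i j k l hij hkl h1 h2 a ha y hy).2

end Pool.Agent.Helper64.HG
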