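import Pool.Agent.Helper64.HG.Stmts

/-! Module NCE: the ear configuration is not a circle graph. -/

set_option autoImplicit false

namespace Pool.Agent.Helper64.HG

variable {V : Type}

theorem nce_order (x f g h : ℝ) (xg : x ≠ g) (xh : x ≠ h) (fg : f ≠ g) (fh : f ≠ h)
    (gh : g ≠ h) (h1 : ¬ ((x < g ∧ g < f) ∨ (f < g ∧ g < x)))
    (h2 : ¬ ((x < h ∧ h < f) ∨ (f < h ∧ h < x))) (h3 : ¬ ((g < h ∧ h < x) ∨ (x < h ∧ h < g)))
    (h4 : ¬ ((h < g ∧ g < x) ∨ (x < g ∧ g < h))) (h5 : ¬ ((g < f ∧ f < h) ∨ (h < f ∧ f < g))) :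
    False := by
  push Not at h1 h2 h3 h4 h5
  obtain ⟨a1, a2⟩ := h1
  obtain ⟨b1, b2⟩ := h2
  obtain ⟨c1, c2⟩ := h3
  obtain ⟨d1, d2⟩ := h4
  obtain ⟨e1, e2⟩ := h5
  rcases lt_or_gt_of_ne xg with g1 | g1
  · -- x < g
    have g2 : h < g := lt_of_le_of_ne (d2 g1) gh.symm
    have g3 : h < x := by
      rcases lt_or_gt_of_ne xh with g3 | g3
      · exact absurd (c2 g3) (not_le.2 g2)
      · exact g3
    have g4 : f < g := lt_of_le_of_ne (a1 g1) fg
    rcases lt_or_gt_of_ne fh with g5 | g5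
    · exact absurd (b2 g5) (not_le.2 g3)
    · exact absurd (e2 g5) (not_le.2 g4)
  · -- g < x
    have g2 : x < h := by
      rcases lt_or_gt_of_ne xh with g3 | g3
      · exact g3
      · rcases lt_or_gt_of_ne gh with g4 | g4
        · exact absurd (c1 g4) (not_le.2 g3)
        · exact absurd (d1 g4) (not_le.2 g1)
    have g3 : f < h := lt_of_le_of_ne (b1 g2) fh
    rcases lt_or_gt_of_ne fg with g5 | g5
    · exact absurd (a2 g5) (not_le.2 g1)
    · exact absurd (e1 g5) (not_le.2 g3)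

theorem nce_hd {G : SimpleGraph V} {u w : V} {A : List V} (h : Link G u A w) :
    ∃ x ∈ A, G.Adj u x := by
  obtain ⟨h1, h2, h3, h4, h5, h6⟩ := h
  match A, h1, h5 with
  | x :: A, _, h5 => exact ⟨x, by simp, (h5 x (by simp)).2 rfl⟩

theorem nce_lt {G : SimpleGraph V} {u w : V} {A : List V} (h : Link G u A w) :
    ∃ x ∈ A, G.Adj w x := by
  obtain ⟨h1, h2, h3, h4, h5, h6⟩ := h
  exact ⟨A.getLast h1, List.getLast_mem h1,
    (h6 _ (List.getLast_mem h1)).2 (List.getLast?_eq_getLast_of_ne_nil h1)⟩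

theorem nce_ch {G : SimpleGraph V} {u w : V} {A : List V} (h : Link G u A w) :
    A.IsChain G.Adj := by
  rw [List.isChain_iff_getElem]
  intro i hi
  exact (h.2.1.2 i (i + 1) (by omega) hi (by omega)).2 rfl

theorem nce_snoc {G : SimpleGraph V} {u w : V} {A : List V} (h : Link G u A w) :
    (A ++ [w]).IsChain G.Adj := by
  rw [List.isChain_append]
  refine ⟨nce_ch h, by simp, ?_⟩
  intro x hx y hy
  simp only [List.head?_cons, Option.mem_def, Option.some.injEq] at hy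
  subst hy
  rw [Option.mem_def] at hx
  exact ((h.2.2.2.2.2 x (List.mem_of_getLast? hx)).2 hx).symm

theorem nce_mid {G : SimpleGraph V} {u u' w : V} {A A' : List V} (h : Link G u A w)
    (h' : Link G u' A' w) : (A ++ w :: A'.reverse).IsChain G.Adj := by
  rw [List.isChain_append]
  refine ⟨nce_ch h, ?_, ?_⟩
  · have e : w :: A'.reverse = (A' ++ [w]).reverse := by simp
    rw [e, List.isChain_reverse]
    exact (nce_snoc h').imp fun a b hab => hab.symm
  · intro x hx y hy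
    simp only [List.head?_cons, Option.mem_def, Option.some.injEq] at hy
    subst hy
    rw [Option.mem_def] at hx
    exact ((h.2.2.2.2.2 x (List.mem_of_getLast? hx)).2 hx).symm

theorem st_NCE (hBTW : ST_BTW) (hSPL : ST_SPL) (_hREV : ST_REV) : ST_NCE := by
  intro V _ G hg ⟨x0, x1, x2, F, B, C, hE⟩ hC
  obtain ⟨p, hinj, hp⟩ := hBTW V G x1 hg hC
  obtain ⟨F', f, hF⟩ : ∃ F' f, F = F' ++ [f] := by
    have h : F ≠ [] := hE.linkF.1
    exact ⟨F.dropLast, F.getLast h, (List.dropLast_append_getLast h).symm⟩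
  subst hF
  obtain ⟨g, B', hB⟩ := List.exists_cons_of_ne_nil hE.linkB.1
  subst hB
  obtain ⟨h, C', hC'⟩ := List.exists_cons_of_ne_nil hE.linkC.1
  subst hC'
  have lF := hE.lF
  have lB := hE.lB
  have lC := hE.lC
  rw [List.length_append, List.length_singleton] at lF
  rw [List.length_cons] at lB lC
  have nF : F' ≠ [] := by
    intro h
    rw [h] at lF
    simp at lF
  have nB : B' ≠ [] := by
    intro h
    rw [h] at lB
    simp at lB
  have nC : C' ≠ [] := by
    intro h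
    rw [h] at lC
    simp at lC
  obtain ⟨-, s2, s3, -, -, -, s7, s8, s9⟩ := hSPL V G x0 f x1 F' [] hE.linkF
  obtain ⟨t1, -, -, t4, -, t6, -, t8, t9⟩ := hSPL V G x1 g x2 [] B' hE.linkB
  obtain ⟨u1, -, -, u4, -, u6, -, u8, u9⟩ := hSPL V G x1 h x2 [] C' hE.linkC
  obtain ⟨LF, hx0f⟩ := s2 nF
  obtain ⟨LB, hgx2⟩ := t4 nB
  obtain ⟨LC, hhx2⟩ := u4 nC
  have a0 : G.Adj x1 x0 := hE.adj01.symm
  have af : G.Adj x1 f := (s3 rfl).symm
  have ag : G.Adj x1 g := t1 rfl
  have ah : G.Adj x1 h := u1 rfl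
  have n0g : x0 ≠ g := (hE.x0B x0 (by simp) g (by simp)).1
  have n0h : x0 ≠ h := (hE.x0C x0 (by simp) h (by simp)).1
  have nfg : f ≠ g := (hE.FB f (by simp) g (by simp)).1
  have nfh : f ≠ h := (hE.FC f (by simp) h (by simp)).1
  have ngh : g ≠ h := (hE.BC g (by simp) h (by simp)).1
  have farF : ∀ x ∈ F', x ∈ Far G x1 := fun x hx =>
    ⟨(s7 x1 (by simp) x hx).1.symm, (s7 x1 (by simp) x hx).2⟩
  have farB : ∀ x ∈ B', x ∈ Far G x1 := fun x hx =>
    ⟨(t6 x1 (by simp) x hx).1.symm, (t6 x1 (by simp) x hx).2⟩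
  have farC : ∀ x ∈ C', x ∈ Far G x1 := fun x hx =>
    ⟨(u6 x1 (by simp) x hx).1.symm, (u6 x1 (by simp) x hx).2⟩
  have far2 : x2 ∈ Far G x1 := ⟨hE.ne12.symm, hE.nadj12⟩
  have chF : Ch G F' := List.isChain_iff_getElem.1 (nce_ch LF)
  have chB : Ch G (B' ++ [x2]) := List.isChain_iff_getElem.1 (nce_snoc LB)
  have chC : Ch G (C' ++ [x2]) := List.isChain_iff_getElem.1 (nce_snoc LC)
  have chM : Ch G (B' ++ x2 :: C'.reverse) := List.isChain_iff_getElem.1 (nce_mid LB LC)
  obtain ⟨y1, hy1, hy1'⟩ := nce_hd LF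
  obtain ⟨y2, hy2, hy2'⟩ := nce_lt LF
  obtain ⟨y3, hy3, hy3'⟩ := nce_hd LB
  obtain ⟨y4, hy4, hy4'⟩ := nce_hd LC
  have q1 : ¬ Btw p x0 g f := hp x0 f g F' a0 af ag n0g.symm nfg.symm chF farF ⟨y1, hy1, hy1'⟩
    ⟨y2, hy2, hy2'⟩ fun x hx hgx =>
      (hE.FB x (List.mem_append_left _ hx) g (by simp)).2 hgx.symm
  have q2 : ¬ Btw p x0 h f := hp x0 f h F' a0 af ah n0h.symm nfh.symm chF farF ⟨y1, hy1, hy1'⟩
    ⟨y2, hy2, hy2'⟩ fun x hx hgx =>
      (hE.FC x (List.mem_append_left _ hx) h (by simp)).2 hgx.symm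
  have q3 : ¬ Btw p g h x0 := by
    refine hp g x0 h (B' ++ [x2]) ag a0 ah ngh.symm n0h.symm chB ?_
      ⟨y3, List.mem_append_left _ hy3, hy3'⟩ ⟨x2, by simp, hE.adj02⟩ ?_
    · intro x hx
      rw [List.mem_append, List.mem_singleton] at hx
      rcases hx with hx | rfl
      · exact farB x hx
      · exact far2
    · intro x hx hhx
      rw [List.mem_append, List.mem_singleton] at hx
      rcases hx with hx | rfl
      · exact (hE.BC x (List.mem_cons_of_mem _ hx) h (by simp)).2 hhx.symm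
      · exact hhx2 hhx
  have q4 : ¬ Btw p h g x0 := by
    refine hp h x0 g (C' ++ [x2]) ah a0 ag ngh n0g.symm chC ?_
      ⟨y4, List.mem_append_left _ hy4, hy4'⟩ ⟨x2, by simp, hE.adj02⟩ ?_
    · intro x hx
      rw [List.mem_append, List.mem_singleton] at hx
      rcases hx with hx | rfl
      · exact farC x hx
      · exact far2
    · intro x hx hgx
      rw [List.mem_append, List.mem_singleton] at hx
      rcases hx with hx | rfl
      · exact (hE.BC g (by simp) x (List.mem_cons_of_mem _ hx)).2 hgx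
      · exact hgx2 hgx
  have q5 : ¬ Btw p g f h := by
    refine hp g h f (B' ++ x2 :: C'.reverse) ag ah af nfg nfh chM ?_
      ⟨y3, List.mem_append_left _ hy3, hy3'⟩ ⟨y4, by simp [hy4], hy4'⟩ ?_
    · intro x hx
      rw [List.mem_append, List.mem_cons, List.mem_reverse] at hx
      rcases hx with hx | rfl | hx
      · exact farB x hx
      · exact far2
      · exact farC x hx
    · intro x hx hfx
      rw [List.mem_append, List.mem_cons, List.mem_reverse] at hx
      rcases hx with hx | rfl | hx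
      · exact (hE.FB f (by simp) x (List.mem_cons_of_mem _ hx)).2 hfx
      · exact (hE.x2F x (by simp) f (by simp)).2 hfx.symm
      · exact (hE.FC f (by simp) x (List.mem_cons_of_mem _ hx)).2 hfx
  exact nce_order (p x0) (p f) (p g) (p h)
    (fun e => n0g (hinj _ _ a0 ag e)) (fun e => n0h (hinj _ _ a0 ah e))
    (fun e => nfg (hinj _ _ af ag e)) (fun e => nfh (hinj _ _ af ah e))
    (fun e => ngh (hinj _ _ ag ah e)) q1 q2 q3 q4 q5

end Pool.Agent.Helper64.HG
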